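import Pool.Agent.Work.MP_8826fd_mp.Asm
import Pool.Agent.Work.MP_8826fd_mp.F2
import Pool.Agent.Work.MP_8826fd_mp.AL.A0
import Pool.Agent.Work.MP_8826fd_mp.AL.A
import Pool.Agent.Work.MP_8826fd_mp.AL.CB
import Pool.Agent.Work.MP_8826fd_mp.AL.D

/-!
# The disc is a strict local maximiser of the magnetic Neumann ground state energy, for every field

`lamN B Ω` is the lowest Neumann eigenvalue of the magnetic Laplacian with constant field `B` on `Ω`
(variational infimum, written exactly as in the frozen statements), `edisc a R` is the disc with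
centre `a` and radius `R`, and `starDom a ρ` is the domain `{a + r (cos θ, sin θ) : 0 ≤ r < ρ(θ)}`.
-/

namespace Pool.Agent.Results.MP_8826fd_mp.LocalMaximality

open Pool.Agent.MFK MeasureTheory

theorem result :
    ∀ B R : ℝ, 0 < B → 0 < R → ∃ ε > (0 : ℝ), ∃ c > (0 : ℝ), ∀ (a : ℝ × ℝ) (ρ : ℝ → ℝ),
      Continuous ρ → (∀ θ, ρ (θ + 2 * Real.pi) = ρ θ) → (∀ θ, |ρ θ - R| ≤ ε) →
      volume (starDom a ρ) = volume (edisc a R) →
      (∫ x in starDom a ρ, (x.1 - a.1)) = 0 → (∫ x in starDom a ρ, (x.2 - a.2)) = 0 →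
      lamN B (starDom a ρ)
        ≤ lamN B (edisc a R) - c * ∫ θ in (0 : ℝ)..(2 * Real.pi), (ρ θ - R) ^ 2 := by
  have hAL : StAL := AL0.stAL_of (fun p M lam m al be F hm k hk =>
    AL.mode_ge_three_of AL.stC AL.stB AL.stA0 AL.stA AL.stD AL.stD23 F hm k hk)
  exact finA (Asm.main hAL) pInt uOpen

end Pool.Agent.Results.MP_8826fd_mp.LocalMaximality
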